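import Mathlib

open scoped InnerProductSpace Matrix ComplexOrder

namespace Pool.Agent.Results.MP_25d917_an.UniformDecayBound

section abstract

variable {E : Type*} [NormedAddCommGroup E] [InnerProductSpace ℂ E] [FiniteDimensional ℂ E]

/-- If `N` is an endomorphism with `Re ⟪u, N u⟫ ≥ 0` for all `u`, then
`Re ⟪w, N w⟫ ≤ Re (tr N) ‖w‖²`. -/
lemma re_inner_le_trace (N : E →ₗ[ℂ] E) (hN : ∀ u : E, 0 ≤ (⟪u, N u⟫_ℂ).re) (w : E) :
    (⟪w, N w⟫_ℂ).re ≤ (LinearMap.trace ℂ E N).re * ‖w‖ ^ 2 := by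
  by_cases hw : w = 0
  · simp [hw]
  have hwn : 0 < ‖w‖ := norm_pos_iff.2 hw
  set b₁ : E := ((‖w‖ : ℂ)⁻¹) • w with hb₁
  have hn : ‖b₁‖ = 1 := by
    rw [hb₁, norm_smul, norm_inv, Complex.norm_real, norm_norm, inv_mul_cancel₀ hwn.ne']
  have hon : Orthonormal ℂ ((↑) : ({b₁} : Set E) → E) := by
    classical
    rw [orthonormal_subtype_iff_ite]
    intro v hv w hw
    simp only [Set.mem_singleton_iff] at hv hw
    subst hv; subst hw
    simp [inner_self_eq_norm_sq_to_K, hn]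
  obtain ⟨u, b, hu, hb⟩ := hon.exists_orthonormalBasis_extension
  have hmem : b₁ ∈ u := by simpa using hu
  have htr := LinearMap.trace_eq_sum_inner N b
  rw [htr, Complex.re_sum]
  have h1 : (⟪b ⟨b₁, hmem⟩, N (b ⟨b₁, hmem⟩)⟫_ℂ).re ≤ ∑ i, (⟪b i, N (b i)⟫_ℂ).re :=
    Finset.single_le_sum (f := fun i => (⟪b i, N (b i)⟫_ℂ).re) (fun i _ => hN _) (Finset.mem_univ _)
  have h2 : b ⟨b₁, hmem⟩ = b₁ := by rw [hb]
  rw [h2] at h1
  have h3 : (⟪w, N w⟫_ℂ).re = (⟪b₁, N b₁⟫_ℂ).re * ‖w‖ ^ 2 := by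
    rw [hb₁, map_smul, inner_smul_left, inner_smul_right]
    have : (starRingEnd ℂ) ((‖w‖ : ℂ)⁻¹) * ((‖w‖ : ℂ)⁻¹ * ⟪w, N w⟫_ℂ) =
        (((‖w‖ ^ 2)⁻¹ : ℝ) : ℂ) * ⟪w, N w⟫_ℂ := by
      rw [map_inv₀, Complex.conj_ofReal]; push_cast; ring
    rw [this, Complex.re_ofReal_mul]
    field_simp
  rw [h3]
  gcongr

/-- Core inequality. -/
lemma core (S A : E →ₗ[ℂ] E) (hS : ∀ v : E, 0 ≤ (⟪v, S v⟫_ℂ).re)
    (hA : ∀ v : E, (⟪v, A v⟫_ℂ).re = 0) (v : E) (hv : v ≠ 0) {a x γ : ℝ} (ha : 0 ≤ a) (hx : 0 < x)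
    (hSv : ‖S v‖ ≤ 2 * a * ‖v‖) (hAv : ‖A v‖ ≤ a * ‖v‖) (hγ : 0 < γ)
    (heig : ∀ (μ : ℂ) (y : E), y ≠ 0 → (S - A) y = μ • y → γ ≤ μ.re) :
    x / (3 * a + x) ^ 2 ≤ (Module.finrank ℂ E : ℝ) / (γ + x) := by
  set M : E →ₗ[ℂ] E := (S - A) + (x : ℂ) • LinearMap.id with hM
  have hMapp : ∀ u, M u = S u - A u + (x : ℂ) • u := fun u => by simp [hM]
  have hMre : ∀ u, (⟪u, M u⟫_ℂ).re = (⟪u, S u⟫_ℂ).re + x * ‖u‖ ^ 2 := by
    intro u
    rw [hMapp, inner_add_right, inner_sub_right, inner_smul_right, Complex.add_re, Complex.sub_re,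
      hA, sub_zero, inner_self_eq_norm_sq_to_K]
    congr 1
    rw [Complex.re_ofReal_mul]
    norm_cast
  have hMre' : ∀ u, (⟪M u, u⟫_ℂ).re = (⟪u, S u⟫_ℂ).re + x * ‖u‖ ^ 2 := by
    intro u
    rw [← hMre u, ← inner_conj_symm u (M u), Complex.conj_re]
  have hinj : Function.Injective M := by
    rw [injective_iff_map_eq_zero]
    intro u hu
    have h1 := hMre u
    rw [hu] at h1
    simp at h1
    have h2 := hS u
    have h3 : ‖u‖ ^ 2 ≤ 0 := by
      by_contra h
      push Not at h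
      nlinarith
    have : ‖u‖ = 0 := by nlinarith [norm_nonneg u]
    exact norm_eq_zero.1 this
  set e : E ≃ₗ[ℂ] E := LinearEquiv.ofInjectiveEndo M hinj with he
  have hea : ∀ u, e u = M u := fun u => rfl
  set N : E →ₗ[ℂ] E := (e.symm : E →ₗ[ℂ] E) with hNdef
  have hMN : ∀ u, M (N u) = u := fun u => by rw [← hea]; exact e.apply_symm_apply u
  have hNM : ∀ u, N (M u) = u := fun u => by rw [← hea]; exact e.symm_apply_apply u
  have hNre : ∀ u, 0 ≤ (⟪u, N u⟫_ℂ).re := by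
    intro u
    have : (⟪u, N u⟫_ℂ).re = (⟪M (N u), N u⟫_ℂ).re := by rw [hMN]
    rw [this, hMre']
    have := hS (N u)
    positivity
  -- lower bound for the trace
  have hlow : x / (3 * a + x) ^ 2 ≤ (LinearMap.trace ℂ E N).re := by
    have h1 := re_inner_le_trace N hNre (M v)
    rw [hNM, hMre'] at h1
    have h2 : ‖M v‖ ≤ (3 * a + x) * ‖v‖ := by
      rw [hMapp]
      calc ‖S v - A v + (x : ℂ) • v‖ ≤ ‖S v‖ + ‖A v‖ + ‖(x : ℂ) • v‖ :=
            (norm_add_le _ _).trans (by gcongr; exact norm_sub_le _ _)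
        _ = ‖S v‖ + ‖A v‖ + x * ‖v‖ := by
            rw [norm_smul, Complex.norm_real, Real.norm_of_nonneg hx.le]
        _ ≤ (3 * a + x) * ‖v‖ := by linarith
    have hvn : 0 < ‖v‖ := norm_pos_iff.2 hv
    have htr : 0 ≤ (LinearMap.trace ℂ E N).re := by
      have h0 := re_inner_le_trace N hNre v
      have h0' := hNre v
      by_contra h
      push Not at h
      have : (LinearMap.trace ℂ E N).re * ‖v‖ ^ 2 < 0 := mul_neg_of_neg_of_pos h (by positivity)
      linarith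
    have h3 : x * ‖v‖ ^ 2 ≤ (LinearMap.trace ℂ E N).re * ((3 * a + x) * ‖v‖) ^ 2 := by
      have h4 := hS v
      have h5 : (LinearMap.trace ℂ E N).re * ‖M v‖ ^ 2 ≤
          (LinearMap.trace ℂ E N).re * ((3 * a + x) * ‖v‖) ^ 2 := by gcongr
      linarith
    rw [div_le_iff₀ (by positivity)]
    have h6 : 0 < ‖v‖ ^ 2 := by positivity
    have h7 : x * ‖v‖ ^ 2 ≤ ((LinearMap.trace ℂ E N).re * (3 * a + x) ^ 2) * ‖v‖ ^ 2 := by
      linarith [h3, show (LinearMap.trace ℂ E N).re * ((3 * a + x) * ‖v‖) ^ 2 =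
        ((LinearMap.trace ℂ E N).re * (3 * a + x) ^ 2) * ‖v‖ ^ 2 by ring]
    exact le_of_mul_le_mul_right h7 h6
  -- upper bound for the trace
  have hup : (LinearMap.trace ℂ E N).re ≤ (Module.finrank ℂ E : ℝ) / (γ + x) := by
    rw [Module.End.trace_eq_sum_roots_charpoly_of_splits (IsAlgClosed.splits _)]
    have hroot : ∀ μ ∈ (LinearMap.charpoly N).roots, μ.re ≤ 1 / (γ + x) := by
      intro μ hμ
      have hr : (LinearMap.charpoly N).IsRoot μ := Polynomial.isRoot_of_mem_roots hμ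
      have hev : Module.End.HasEigenvalue N μ := by
        rw [Module.End.hasEigenvalue_iff_isRoot_charpoly]; exact hr
      obtain ⟨y, hy⟩ := hev.exists_hasEigenvector
      have hy0 : y ≠ 0 := hy.2
      have hNy : N y = μ • y := hy.apply_eq_smul
      have hy1 : y = μ • M y := by
        have := hMN y
        rw [hNy, map_smul] at this
        exact this.symm
      have hμ0 : μ ≠ 0 := by
        intro h; rw [h, zero_smul] at hy1; exact hy0 hy1
      have hMy : M y = μ⁻¹ • y := by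
        conv_rhs => rw [hy1]
        rw [smul_smul, inv_mul_cancel₀ hμ0, one_smul]
      have hTy : (S - A) y = (μ⁻¹ - (x : ℂ)) • y := by
        rw [sub_smul, ← hMy, hMapp]; simp
      have h1 := heig _ y hy0 hTy
      have h2 : γ + x ≤ (μ⁻¹).re := by simp at h1 ⊢; linarith
      have h3 : γ + x ≤ ‖μ⁻¹‖ := h2.trans (Complex.re_le_norm _)
      have h4 : ‖μ‖ ≤ 1 / (γ + x) := by
        rw [norm_inv] at h3
        have := one_div_le_one_div_of_le (by positivity) h3
        simpa using this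
      exact (Complex.re_le_norm _).trans h4
    have hsum : ((LinearMap.charpoly N).roots.sum).re =
        ((LinearMap.charpoly N).roots.map Complex.re).sum := by
      have := map_multiset_sum Complex.reAddGroupHom (LinearMap.charpoly N).roots
      simpa using this
    rw [hsum]
    have h1 : ((LinearMap.charpoly N).roots.map Complex.re).sum ≤
        Multiset.card ((LinearMap.charpoly N).roots.map Complex.re) • (1 / (γ + x)) := by
      apply Multiset.sum_le_card_nsmul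
      intro r hr
      obtain ⟨μ, hμ, rfl⟩ := Multiset.mem_map.1 hr
      exact hroot μ hμ
    have h2 : Multiset.card ((LinearMap.charpoly N).roots.map Complex.re) ≤
        Module.finrank ℂ E := by
      rw [Multiset.card_map, ← LinearMap.charpoly_natDegree N]
      exact Polynomial.card_roots' _
    calc ((LinearMap.charpoly N).roots.map Complex.re).sum
        ≤ Multiset.card ((LinearMap.charpoly N).roots.map Complex.re) • (1 / (γ + x)) := h1
      _ ≤ (Module.finrank ℂ E : ℝ) * (1 / (γ + x)) := by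
          rw [nsmul_eq_mul]
          have : (0 : ℝ) ≤ 1 / (γ + x) := by positivity
          gcongr
      _ = (Module.finrank ℂ E : ℝ) / (γ + x) := by ring
  exact hlow.trans hup

end abstract

/-! ### Matrix formulation -/

/-- `(A,B)` is controllable: the columns of `A^k B`, `k < n`, span `ℂⁿ`. -/
def Controllable {n m : ℕ} (A : Matrix (Fin n) (Fin n) ℂ) (B : Matrix (Fin n) (Fin m) ℂ) : Prop :=
  Submodule.span ℂ {w : Fin n → ℂ | ∃ (k : ℕ) (u : Fin m → ℂ), k < n ∧ w = (A ^ k * B) *ᵥ u} = ⊤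

/-- The algebraic Riccati equation `A* X + X A - X B B* X + I = 0`. -/
def Riccati {n m : ℕ} (A : Matrix (Fin n) (Fin n) ℂ) (B : Matrix (Fin n) (Fin m) ℂ)
    (X : Matrix (Fin n) (Fin n) ℂ) : Prop :=
  Aᴴ * X + X * A - X * B * Bᴴ * X + 1 = 0

/-- The closed-loop matrix `A - B B* X`. -/
noncomputable def closedLoop {n m : ℕ} (A : Matrix (Fin n) (Fin n) ℂ)
    (B : Matrix (Fin n) (Fin m) ℂ) (X : Matrix (Fin n) (Fin n) ℂ) : Matrix (Fin n) (Fin n) ℂ :=
  A - B * Bᴴ * X

/-- Minus the largest real part of an eigenvalue of `M`. -/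
noncomputable def decayRate {n : ℕ} (M : Matrix (Fin n) (Fin n) ℂ) : ℝ :=
  -sSup {r : ℝ | ∃ (l : ℂ) (v : Fin n → ℂ), v ≠ 0 ∧ M *ᵥ v = l • v ∧ r = l.re}

/-- The diameter of the set of eigenvalues of `A`. -/
noncomputable def specDiam {n : ℕ} (A : Matrix (Fin n) (Fin n) ℂ) : ℝ :=
  Metric.diam {l : ℂ | ∃ v : Fin n → ℂ, v ≠ 0 ∧ A *ᵥ v = l • v}

lemma riccati_inv {n m : ℕ} {A X S : Matrix (Fin n) (Fin n) ℂ} {B : Matrix (Fin n) (Fin m) ℂ}
    (hA : Aᴴ = -A) (hSX : S * X = 1) (hXS : X * S = 1) (h : Riccati A B X) :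
    B * Bᴴ = S * S + A * S - S * A := by
  unfold Riccati at h
  rw [hA, Matrix.mul_assoc X B Bᴴ] at h
  set G := B * Bᴴ
  have h1 : S * (-A * X + X * A - X * G * X + 1) * S = 0 := by rw [h]; simp
  have e1 : S * (-A * X + X * A - X * G * X + 1) * S =
      -(S * A * (X * S)) + (S * X) * A * S - (S * X) * G * (X * S) + S * S := by
    noncomm_ring
  rw [e1, hSX, hXS] at h1
  simp only [mul_one, one_mul] at h1
  have h2 : S * S + A * S - S * A - G = 0 := by rw [← h1]; abel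
  exact (sub_eq_zero.1 h2).symm

/-- The linear map on `EuclideanSpace` given by a matrix. -/
noncomputable abbrev op {n : ℕ} (M : Matrix (Fin n) (Fin n) ℂ) :
    EuclideanSpace ℂ (Fin n) →ₗ[ℂ] EuclideanSpace ℂ (Fin n) := Matrix.toEuclideanLin M

lemma op_apply {n : ℕ} (M : Matrix (Fin n) (Fin n) ℂ) (v : EuclideanSpace ℂ (Fin n)) :
    (op M v).ofLp = M *ᵥ v.ofLp := rfl

lemma op_adj {n : ℕ} (M : Matrix (Fin n) (Fin n) ℂ) (u v : EuclideanSpace ℂ (Fin n)) :
    ⟪op M u, v⟫_ℂ = ⟪u, op Mᴴ v⟫_ℂ := by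
  rw [op, op, Matrix.toEuclideanLin_conjTranspose_eq_adjoint, LinearMap.adjoint_inner_right]

lemma op_mul {n : ℕ} (M N : Matrix (Fin n) (Fin n) ℂ) (v : EuclideanSpace ℂ (Fin n)) :
    op (M * N) v = op M (op N v) := by
  apply WithLp.ofLp_injective
  simp [Matrix.mulVec_mulVec]

lemma re_inner_skew {n : ℕ} {A : Matrix (Fin n) (Fin n) ℂ} (hA : Aᴴ = -A)
    (v : EuclideanSpace ℂ (Fin n)) : (⟪v, op A v⟫_ℂ).re = 0 := by
  have h1 := op_adj A v v
  rw [hA] at h1
  have h2 : op (-A) v = -(op A v) := by simp [op]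
  rw [h2, inner_neg_right] at h1
  have h3 : (⟪op A v, v⟫_ℂ).re = (⟪v, op A v⟫_ℂ).re := by
    rw [← inner_conj_symm v (op A v), Complex.conj_re]
  rw [h1] at h3
  simp at h3
  linarith

lemma posDef_re_inner {n : ℕ} {S : Matrix (Fin n) (Fin n) ℂ} (hS : S.PosDef)
    (v : EuclideanSpace ℂ (Fin n)) : 0 ≤ (⟪v, op S v⟫_ℂ).re := by
  have h := hS.posSemidef.dotProduct_mulVec_nonneg v.ofLp
  rw [EuclideanSpace.inner_eq_star_dotProduct, op_apply, dotProduct_comm]
  exact (Complex.nonneg_iff.1 h).1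

/-- a nonzero vector in the kernel of `B*`. -/
lemma exists_ker {n m : ℕ} (hmn : m < n) (B : Matrix (Fin n) (Fin m) ℂ) :
    ∃ v : EuclideanSpace ℂ (Fin n), v ≠ 0 ∧ Bᴴ *ᵥ v.ofLp = 0 := by
  have h : LinearMap.ker (Matrix.mulVecLin Bᴴ) ≠ ⊥ := by
    apply LinearMap.ker_ne_bot_of_finrank_lt
    simpa using hmn
  obtain ⟨v, hv, hv0⟩ := (Submodule.ne_bot_iff _).1 h
  refine ⟨WithLp.toLp 2 v, ?_, ?_⟩
  · intro h
    apply hv0
    have := congrArg WithLp.ofLp h
    simpa using this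
  · simpa using hv

lemma norm_S_le {n m : ℕ} {S A : Matrix (Fin n) (Fin n) ℂ} {B : Matrix (Fin n) (Fin m) ℂ}
    (hS : Sᴴ = S) (hA : Aᴴ = -A) (h : B * Bᴴ = S * S + A * S - S * A)
    {v : EuclideanSpace ℂ (Fin n)} (hv : Bᴴ *ᵥ v.ofLp = 0) : ‖op S v‖ ≤ 2 * ‖op A v‖ := by
  have h1 : op (S * S + A * S - S * A) v = 0 := by
    rw [← h]
    apply WithLp.ofLp_injective
    rw [op_apply, ← Matrix.mulVec_mulVec, hv]
    simp
  have h2 : op (S * S + A * S - S * A) v = op S (op S v) + op A (op S v) - op S (op A v) := by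
    rw [← op_mul, ← op_mul, ← op_mul]
    simp [op]
  rw [h2] at h1
  have h3 : ⟪op S v, op S v⟫_ℂ = ⟪op S v, op A v⟫_ℂ + ⟪op A v, op S v⟫_ℂ := by
    have e1 : ⟪op S v, op S v⟫_ℂ = ⟪v, op S (op S v)⟫_ℂ := by rw [op_adj, hS]
    have e2 : ⟪op S v, op A v⟫_ℂ = ⟪v, op S (op A v)⟫_ℂ := by rw [op_adj, hS]
    have e3 : ⟪op A v, op S v⟫_ℂ = -⟪v, op A (op S v)⟫_ℂ := by
      rw [op_adj, hA]
      have : op (-A) (op S v) = -(op A (op S v)) := by simp [op]
      rw [this, inner_neg_right]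
    rw [e1, e2, e3]
    have e4 : ⟪v, op S (op S v) + op A (op S v) - op S (op A v)⟫_ℂ = 0 := by
      rw [h1, inner_zero_right]
    rw [inner_sub_right, inner_add_right] at e4
    linear_combination e4
  have h4 : ‖op S v‖ ^ 2 ≤ 2 * ‖op A v‖ * ‖op S v‖ := by
    have e1 : ‖⟪op S v, op S v⟫_ℂ‖ = ‖op S v‖ ^ 2 := by
      rw [inner_self_eq_norm_sq_to_K]; simp
    rw [← e1, h3]
    calc ‖⟪op S v, op A v⟫_ℂ + ⟪op A v, op S v⟫_ℂ‖
        ≤ ‖⟪op S v, op A v⟫_ℂ‖ + ‖⟪op A v, op S v⟫_ℂ‖ := norm_add_le _ _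
      _ ≤ ‖op S v‖ * ‖op A v‖ + ‖op A v‖ * ‖op S v‖ := by
          gcongr <;> exact norm_inner_le_norm _ _
      _ = 2 * ‖op A v‖ * ‖op S v‖ := by ring
  rcases (norm_nonneg (op S v)).eq_or_lt with h5 | h5
  · rw [← h5]; positivity
  · nlinarith

/-- Bound in terms of a number `a` with `‖(A + i c) v‖ ≤ a ‖v‖`. -/
lemma bound_of_shift {n m : ℕ} (hmn : m < n) {A X : Matrix (Fin n) (Fin n) ℂ}
    {B : Matrix (Fin n) (Fin m) ℂ} (hA : Aᴴ = -A) (hX : X.PosDef) (hR : Riccati A B X)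
    (c : ℝ) {a : ℝ} (ha : 0 < a)
    (hac : ∀ v, ‖op (A + (Complex.I * c) • (1 : Matrix (Fin n) (Fin n) ℂ)) v‖ ≤ a * ‖v‖) :
    decayRate (closedLoop A B X) ≤ 12 * n * a := by
  set S := X⁻¹ with hSdef
  have hdet : IsUnit X.det := (Matrix.isUnit_iff_isUnit_det _).1 hX.isUnit
  have hSX : S * X = 1 := Matrix.nonsing_inv_mul _ hdet
  have hXS : X * S = 1 := Matrix.mul_nonsing_inv _ hdet
  have hS : S.PosDef := hX.inv
  set A' := A + (Complex.I * c) • (1 : Matrix (Fin n) (Fin n) ℂ) with hA'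
  have hA'skew : A'ᴴ = -A' := by
    rw [hA', Matrix.conjTranspose_add, hA, Matrix.conjTranspose_smul, Matrix.conjTranspose_one]
    simp only [star_mul', Complex.star_def, Complex.conj_I, Complex.conj_ofReal]
    rw [neg_add, ← neg_smul, neg_mul]
  have hG : B * Bᴴ = S * S + A' * S - S * A' := by
    rw [riccati_inv hA hSX hXS hR, hA']
    simp only [Matrix.add_mul, Matrix.mul_add, smul_mul_assoc, mul_smul_comm, one_mul, mul_one]
    abel
  obtain ⟨v, hv0, hv⟩ := exists_ker hmn B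
  have h1 : ‖op S v‖ ≤ 2 * ‖op A' v‖ := norm_S_le hS.1 hA'skew hG hv
  have h2 := hac v
  set Eset := {r : ℝ | ∃ (l : ℂ) (v : Fin n → ℂ), v ≠ 0 ∧ closedLoop A B X *ᵥ v = l • v ∧ r = l.re}
    with hEset
  set γ := decayRate (closedLoop A B X) with hγdef
  have hγs : γ = -sSup Eset := rfl
  -- eigenvalues of `S - A'` give eigenvalues of the closed loop
  have htrans : ∀ (μ : ℂ) (y : EuclideanSpace ℂ (Fin n)), y ≠ 0 → (op S - op A') y = μ • y →
      -μ.re ∈ Eset := by
    intro μ y hy hμ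
    have hy' : (S - A') *ᵥ y.ofLp = μ • y.ofLp := by
      have := congrArg WithLp.ofLp hμ
      simpa [Matrix.sub_mulVec] using this
    have hcl : closedLoop A B X = S * (A - S) * X := by
      unfold closedLoop
      rw [riccati_inv hA hSX hXS hR]
      have : (S * S + A * S - S * A) * X = S * (S * X) + A * (S * X) - S * A * X := by
        noncomm_ring
      rw [this, hSX]
      have e2 : S * (A - S) * X = S * A * X - S * (S * X) := by noncomm_ring
      rw [e2, hSX, mul_one, mul_one]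
      abel
    refine ⟨-μ - Complex.I * c, S *ᵥ y.ofLp, ?_, ?_, ?_⟩
    · intro h
      apply hy
      have : X *ᵥ (S *ᵥ y.ofLp) = 0 := by rw [h]; simp
      rw [Matrix.mulVec_mulVec, hXS, Matrix.one_mulVec] at this
      exact WithLp.ofLp_injective 2 this
    · rw [hcl, ← Matrix.mulVec_mulVec, Matrix.mulVec_mulVec _ X S, hXS, Matrix.one_mulVec,
        ← Matrix.mulVec_mulVec]
      have e1 : (A - S) *ᵥ y.ofLp = (-μ - Complex.I * c) • y.ofLp := by
        have e2 : A - S = -(S - A') - (Complex.I * c) • (1 : Matrix (Fin n) (Fin n) ℂ) := by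
          rw [hA']; abel
        rw [e2, Matrix.sub_mulVec, Matrix.neg_mulVec, hy', Matrix.smul_mulVec, Matrix.one_mulVec,
          sub_smul, neg_smul]
      rw [e1, Matrix.mulVec_smul]
    · simp
  have hbdd : BddAbove Eset := by
    have hfin : (Complex.re '' spectrum ℂ (closedLoop A B X)).Finite :=
      (Matrix.finite_spectrum _).image _
    refine (hfin.subset ?_).bddAbove
    rintro r ⟨l, v, hv0, hv, rfl⟩
    refine ⟨l, ?_, rfl⟩
    rw [← Matrix.spectrum_toLin']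
    have hev : Module.End.HasEigenvector (Matrix.toLin' (closedLoop A B X)) l v := by
      rw [Module.End.hasEigenvector_iff, Module.End.mem_eigenspace_iff]
      exact ⟨by simpa using hv, hv0⟩
    exact (Module.End.hasEigenvalue_of_hasEigenvector hev).mem_spectrum
  by_cases hγ : 0 < γ
  · have heig : ∀ (μ : ℂ) (y : EuclideanSpace ℂ (Fin n)), y ≠ 0 → (op S - op A') y = μ • y →
        γ ≤ μ.re := by
      intro μ y hy hμ
      have := le_csSup hbdd (htrans μ y hy hμ)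
      linarith
    have hcore := core (op S) (op A') (posDef_re_inner hS) (re_inner_skew hA'skew) v hv0 (a := a)
      (x := 3 * a) (γ := γ) ha.le (by positivity) (by linarith) h2 hγ heig
    rw [finrank_euclideanSpace_fin] at hcore
    rw [div_le_div_iff₀ (by positivity) (by positivity)] at hcore
    have hn : (0 : ℝ) ≤ n := Nat.cast_nonneg n
    have e1 : 3 * a * γ ≤ 3 * a * (12 * n * a) := by nlinarith [mul_pos ha ha]
    exact le_of_mul_le_mul_left e1 (by positivity)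
  · push Not at hγ
    have : (0 : ℝ) ≤ 12 * n * a := by positivity
    linarith

lemma specSet_finite {n : ℕ} (A : Matrix (Fin n) (Fin n) ℂ) :
    {l : ℂ | ∃ v : Fin n → ℂ, v ≠ 0 ∧ A *ᵥ v = l • v}.Finite := by
  refine (Matrix.finite_spectrum A).subset ?_
  rintro l ⟨v, hv0, hv⟩
  rw [← Matrix.spectrum_toLin']
  have hev : Module.End.HasEigenvector (Matrix.toLin' A) l v := by
    rw [Module.End.hasEigenvector_iff, Module.End.mem_eigenspace_iff]
    exact ⟨by simpa using hv, hv0⟩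
  exact (Module.End.hasEigenvalue_of_hasEigenvector hev).mem_spectrum

/-- After a shift by a multiple of `i I`, the skew-Hermitian matrix `A` has norm at most `Δ(A)/2`. -/
lemma exists_shift {n : ℕ} (hn : 0 < n) {A : Matrix (Fin n) (Fin n) ℂ} (hA : Aᴴ = -A) :
    ∃ c : ℝ, ∀ v, ‖op (A + (Complex.I * c) • (1 : Matrix (Fin n) (Fin n) ℂ)) v‖ ≤
      specDiam A / 2 * ‖v‖ := by
  have : Nonempty (Fin n) := ⟨⟨0, hn⟩⟩
  have hK : (Complex.I • A).IsHermitian := by
    unfold Matrix.IsHermitian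
    rw [Matrix.conjTranspose_smul, hA]
    simp
  set k := hK.eigenvalues with hk
  set b := hK.eigenvectorBasis with hb
  have hAb : ∀ j, A *ᵥ (b j).ofLp = (-(Complex.I * k j)) • (b j).ofLp := by
    intro j
    have h1 := hK.mulVec_eigenvectorBasis j
    have h2 : A *ᵥ (b j).ofLp = (-Complex.I) • ((Complex.I • A) *ᵥ (b j).ofLp) := by
      rw [Matrix.smul_mulVec, smul_smul]
      simp
    rw [h2, h1, ← hk, ← hb]
    ext i
    simp
    ring
  have hmem : ∀ j, (-(Complex.I * k j)) ∈ {l : ℂ | ∃ v : Fin n → ℂ, v ≠ 0 ∧ A *ᵥ v = l • v} := by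
    intro j
    refine ⟨(b j).ofLp, ?_, hAb j⟩
    intro h
    have h1 : b j = 0 := WithLp.ofLp_injective 2 h
    have h2 := b.norm_eq_one j
    rw [h1] at h2
    simp at h2
  have hdist : ∀ i j, k i - k j ≤ specDiam A := by
    intro i j
    have h1 := Metric.dist_le_diam_of_mem (specSet_finite A).isBounded (hmem i) (hmem j)
    have h2 : dist (-(Complex.I * (k i : ℂ))) (-(Complex.I * (k j : ℂ))) = |k i - k j| := by
      rw [dist_eq_norm, show -(Complex.I * (k i : ℂ)) - -(Complex.I * (k j : ℂ)) =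
        -Complex.I * ((k i - k j : ℝ) : ℂ) by push_cast; ring, norm_mul, norm_neg, Complex.norm_I,
        one_mul, Complex.norm_real, Real.norm_eq_abs]
    rw [h2] at h1
    exact (le_abs_self _).trans h1
  obtain ⟨jM, hjM⟩ := Finite.exists_max k
  obtain ⟨jm, hjm⟩ := Finite.exists_min k
  refine ⟨(k jM + k jm) / 2, ?_⟩
  set c : ℝ := (k jM + k jm) / 2 with hc
  intro v
  set A' := A + (Complex.I * c) • (1 : Matrix (Fin n) (Fin n) ℂ) with hA'
  have hA'skew : A'ᴴ = -A' := by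
    rw [hA', Matrix.conjTranspose_add, hA, Matrix.conjTranspose_smul, Matrix.conjTranspose_one]
    simp only [star_mul', Complex.star_def, Complex.conj_I, Complex.conj_ofReal]
    rw [neg_add, ← neg_smul, neg_mul]
  have hA'b : ∀ j, op A' (b j) = (-(Complex.I * ((k j - c : ℝ) : ℂ))) • b j := by
    intro j
    apply WithLp.ofLp_injective
    rw [op_apply, hA', Matrix.add_mulVec, hAb, Matrix.smul_mulVec, Matrix.one_mulVec]
    ext i
    simp
    ring
  have hin : ∀ j, ‖⟪b j, op A' v⟫_ℂ‖ = |k j - c| * ‖⟪b j, v⟫_ℂ‖ := by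
    intro j
    have h1 : ⟪op A'ᴴ (b j), v⟫_ℂ = ⟪b j, op A' v⟫_ℂ := by
      rw [op_adj, Matrix.conjTranspose_conjTranspose]
    rw [← h1, hA'skew]
    have h2 : op (-A') (b j) = -(op A' (b j)) := by simp [op]
    rw [h2, hA'b, inner_neg_left, inner_smul_left, norm_neg, norm_mul]
    congr 1
    rw [Complex.norm_conj, norm_neg, norm_mul, Complex.norm_I, one_mul, Complex.norm_real,
      Real.norm_eq_abs]
  have hkc : ∀ j, |k j - c| ≤ specDiam A / 2 := by
    intro j
    have h1 := hjM j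
    have h2 := hjm j
    have h3 := hdist jM jm
    rw [abs_le]
    constructor <;> linarith
  have hΔ : 0 ≤ specDiam A := Metric.diam_nonneg
  have hsq : ‖op A' v‖ ^ 2 ≤ (specDiam A / 2 * ‖v‖) ^ 2 := by
    rw [← b.sum_sq_norm_inner_right (op A' v), mul_pow, ← b.sum_sq_norm_inner_right v,
      Finset.mul_sum]
    apply Finset.sum_le_sum
    intro j _
    rw [hin, mul_pow]
    have := hkc j
    gcongr
  exact le_of_sq_le_sq hsq (by positivity)

/-- **Q1 is true**, with the explicit constant `C(A) = 6 n Δ(A)`. -/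
theorem result : ∀ (n m : ℕ), 1 ≤ m → m < n → ∀ A : Matrix (Fin n) (Fin n) ℂ, Aᴴ = -A →
    ∀ (B : Matrix (Fin n) (Fin m) ℂ) (X : Matrix (Fin n) (Fin n) ℂ),
      Controllable A B → X.PosDef → Riccati A B X →
      decayRate (closedLoop A B X) ≤ 6 * n * specDiam A := by
  intro n m _ hmn A hA B X _ hX hR
  obtain ⟨c, hc⟩ := exists_shift (by omega) hA
  apply le_of_forall_pos_le_add
  intro ε hε
  have hn : (0 : ℝ) < n := by exact_mod_cast (by omega : 0 < n)
  have hΔ : 0 ≤ specDiam A := Metric.diam_nonneg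
  have h := bound_of_shift hmn hA hX hR c (a := specDiam A / 2 + ε / (12 * n)) (by positivity)
    (fun v => (hc v).trans (by gcongr; linarith [show 0 < ε / (12 * (n : ℝ)) by positivity]))
  calc decayRate (closedLoop A B X) ≤ 12 * n * (specDiam A / 2 + ε / (12 * n)) := h
    _ = 6 * n * specDiam A + ε := by field_simp; ring

end Pool.Agent.Results.MP_25d917_an.UniformDecayBound
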